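import Mathlib

set_option autoImplicit false

namespace Pool.Agent.Results.MP_46fa68_co.TwoMemberBound

open Finset

/-- the number of permutations with prescribed values on `W` -/
lemma card_prescribed {n : ℕ} (W : Finset (Fin n)) (f : Fin n → Fin n) :
    (univ.filter (fun π : Equiv.Perm (Fin n) => ∀ i ∈ W, π i = f i)).card ≤
      (n - W.card).factorial := by
  classical
  rcases (univ.filter (fun π : Equiv.Perm (Fin n) => ∀ i ∈ W, π i = f i)).eq_empty_or_nonempty with
    he | ⟨π0, h0⟩
  · rw [he, card_empty]; exact Nat.zero_le _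
  rw [mem_filter] at h0
  have h1 : (univ.filter (fun π : Equiv.Perm (Fin n) => ∀ i ∈ W, π i = f i)).card ≤
      (univ.filter (fun π : Equiv.Perm (Fin n) => ∀ i, ¬ (i ∉ W) → π i = i)).card := by
    apply card_le_card_of_injOn (fun π => π0⁻¹ * π)
    · intro π hπ
      rw [mem_coe, mem_filter] at hπ
      rw [mem_coe, mem_filter]
      refine ⟨mem_univ _, ?_⟩
      intro i hi
      rw [not_not] at hi
      rw [Equiv.Perm.mul_apply, hπ.2 i hi, ← h0.2 i hi]
      exact π0.symm_apply_apply i
    · intro a _ b _ hab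
      exact mul_left_cancel hab
  refine h1.trans (le_of_eq ?_)
  have h2 : (univ.filter (fun π : Equiv.Perm (Fin n) => ∀ i, ¬ (i ∉ W) → π i = i)).card =
      Fintype.card {π : Equiv.Perm (Fin n) // ∀ i, ¬ (i ∉ W) → π i = i} :=
    (Fintype.card_subtype _).symm
  rw [h2, ← Fintype.card_congr (Equiv.Perm.subtypeEquivSubtypePerm (fun i => i ∉ W)),
    Fintype.card_perm]
  congr 1
  rw [Fintype.card_subtype_compl, Fintype.card_fin]
  simp

/-- the real bound -/
noncomputable def g (s m : ℕ) : ℝ :=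
  (m.factorial : ℝ) * ∑ j ∈ range (s + 1), ((s.choose j : ℝ) * (m.choose j : ℝ)) / (j.factorial : ℝ)

lemma g_step (s m : ℕ) : g (s + 1) m ≤ g s (m + 1) := by
  unfold g
  set c : ℕ → ℝ := fun j => (m.choose j : ℝ) / (j.factorial : ℝ) with hc
  have h1 : ∑ j ∈ range (s + 1 + 1), (((s + 1).choose j : ℝ) * (m.choose j : ℝ)) /
      (j.factorial : ℝ) = ∑ j ∈ range (s + 1), (s.choose j : ℝ) * (c j + c (j + 1)) := by
    have e1 : ∀ j, (((s + 1).choose j : ℝ) * (m.choose j : ℝ)) / (j.factorial : ℝ) =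
        ((s + 1).choose j : ℝ) * c j := fun j => by rw [hc]; ring
    rw [sum_congr rfl (fun j _ => e1 j), sum_range_succ']
    have e2 : ∀ j, ((s + 1).choose (j + 1) : ℝ) * c (j + 1) =
        (s.choose j : ℝ) * c (j + 1) + (s.choose (j + 1) : ℝ) * c (j + 1) := fun j => by
      rw [Nat.choose_succ_succ]; push_cast; ring
    rw [sum_congr rfl (fun j _ => e2 j), sum_add_distrib]
    have e3 : ∑ j ∈ range (s + 1), (s.choose (j + 1) : ℝ) * c (j + 1) + (s.choose 0 : ℝ) * c 0 =
        ∑ j ∈ range (s + 1), (s.choose j : ℝ) * c j := by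
      rw [← sum_range_succ' (fun j => (s.choose j : ℝ) * c j), sum_range_succ,
        Nat.choose_succ_self]
      simp
    have e4 : ∀ j, (s.choose j : ℝ) * (c j + c (j + 1)) =
        (s.choose j : ℝ) * c (j + 1) + (s.choose j : ℝ) * c j := fun j => by ring
    rw [sum_congr rfl (fun j _ => e4 j), sum_add_distrib, ← e3]
    simp only [Nat.choose_zero_right]
    ring
  rw [h1, mul_sum, mul_sum]
  apply sum_le_sum
  intro j _
  have hj : (0 : ℝ) < (j.factorial : ℝ) := by exact_mod_cast j.factorial_pos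
  have hm : (0 : ℝ) < (m.factorial : ℝ) := by exact_mod_cast m.factorial_pos
  have hs : (0 : ℝ) ≤ (s.choose j : ℝ) := Nat.cast_nonneg _
  -- the key inequality
  have k1 : c (j + 1) ≤ (m : ℝ) * (m.choose j : ℝ) / (j.factorial : ℝ) := by
    rw [hc]
    simp only
    rw [Nat.factorial_succ, div_le_div_iff₀ (by positivity) hj]
    have h2 : (m.choose (j + 1)) * (j + 1) ≤ m * m.choose j := by
      rw [Nat.choose_succ_right_eq, mul_comm]
      exact Nat.mul_le_mul_right _ (Nat.sub_le _ _)
    have h3 : ((m.choose (j + 1) : ℝ)) * ((j : ℝ) + 1) ≤ (m : ℝ) * (m.choose j : ℝ) := by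
      exact_mod_cast h2
    push_cast
    have h4 : (0 : ℝ) ≤ (m.choose (j + 1) : ℝ) := Nat.cast_nonneg _
    have h5 : (0 : ℝ) ≤ (j : ℝ) := Nat.cast_nonneg _
    have h6 : (0 : ℝ) ≤ (m : ℝ) * (m.choose j : ℝ) := by positivity
    nlinarith [mul_nonneg h4 h5, mul_nonneg h6 h5, mul_nonneg (mul_nonneg h6 h5) hj.le,
      mul_le_mul_of_nonneg_right h3 hj.le, mul_nonneg (mul_nonneg h4 h5) hj.le]
  have k2 : c j + c (j + 1) ≤ ((m : ℝ) + 1) * ((m + 1).choose j : ℝ) / (j.factorial : ℝ) := by
    have h2 : (m.choose j : ℝ) ≤ ((m + 1).choose j : ℝ) := by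
      exact_mod_cast Nat.choose_le_choose j (Nat.le_succ m)
    have h3 : c j = (m.choose j : ℝ) / (j.factorial : ℝ) := rfl
    calc c j + c (j + 1) ≤ (m.choose j : ℝ) / (j.factorial : ℝ) +
          (m : ℝ) * (m.choose j : ℝ) / (j.factorial : ℝ) := by rw [h3]; linarith
      _ = ((m : ℝ) + 1) * (m.choose j : ℝ) / (j.factorial : ℝ) := by ring
      _ ≤ ((m : ℝ) + 1) * ((m + 1).choose j : ℝ) / (j.factorial : ℝ) := by
        apply div_le_div_of_nonneg_right _ hj.le
        exact mul_le_mul_of_nonneg_left h2 (by positivity)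
  calc (m.factorial : ℝ) * ((s.choose j : ℝ) * (c j + c (j + 1)))
      ≤ (m.factorial : ℝ) * ((s.choose j : ℝ) *
          (((m : ℝ) + 1) * ((m + 1).choose j : ℝ) / (j.factorial : ℝ))) :=
        mul_le_mul_of_nonneg_left (mul_le_mul_of_nonneg_left k2 hs) hm.le
    _ = ((m + 1).factorial : ℝ) * (((s.choose j : ℝ) * ((m + 1).choose j : ℝ)) /
          (j.factorial : ℝ)) := by
        rw [Nat.factorial_succ]; push_cast; ring

lemma g_mono (k : ℕ) : ∀ s m : ℕ, g (s + k) m ≤ g s (m + k) := by
  induction k with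
  | zero => intro s m; exact le_refl _
  | succ k ih =>
    intro s m
    have h1 : g (s + (k + 1)) m ≤ g (s + k) (m + 1) := g_step (s + k) m
    have h2 := ih s (m + 1)
    rw [show m + 1 + k = m + (k + 1) by ring] at h2
    exact h1.trans h2

lemma term_le (m j : ℕ) :
    ((m.choose j * ((m - j).choose j * (m - j).factorial) : ℕ) : ℝ) ≤
      (m.factorial : ℝ) * ((m.choose j : ℝ) / (j.factorial : ℝ)) := by
  have hj : (0 : ℝ) < (j.factorial : ℝ) := by exact_mod_cast j.factorial_pos
  by_cases h : j ≤ m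
  · have h1 : m.choose j * j.factorial * (m - j).factorial = m.factorial :=
      Nat.choose_mul_factorial_mul_factorial h
    have h2 : (m - j).choose j ≤ m.choose j := Nat.choose_le_choose j (Nat.sub_le _ _)
    rw [← mul_div_assoc, le_div_iff₀ hj]
    have h3 : (m.choose j * ((m - j).choose j * (m - j).factorial)) * j.factorial ≤
        m.factorial * m.choose j := by
      rw [← h1]
      calc (m.choose j * ((m - j).choose j * (m - j).factorial)) * j.factorial
          = (m.choose j * j.factorial * (m - j).factorial) * (m - j).choose j := by ring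
        _ ≤ (m.choose j * j.factorial * (m - j).factorial) * m.choose j :=
          Nat.mul_le_mul_left _ h2
    exact_mod_cast h3
  · rw [Nat.choose_eq_zero_of_lt (not_le.mp h)]
    simp

/-- two members with minimal agreement bound everything -/
lemma card_le_g {n s : ℕ} (σ τ : Equiv.Perm (Fin n))
    (hs : (univ.filter (fun i : Fin n => σ i = τ i)).card = s)
    (A : Finset (Equiv.Perm (Fin n)))
    (h1 : ∀ π ∈ A, s ≤ (univ.filter (fun i : Fin n => π i = σ i)).card)
    (h2 : ∀ π ∈ A, s ≤ (univ.filter (fun i : Fin n => π i = τ i)).card) :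
    (A.card : ℝ) ≤ g s (n - s) := by
  classical
  set F : Finset (Fin n) := univ.filter (fun i : Fin n => σ i = τ i) with hF
  have memF : ∀ i, i ∈ F ↔ σ i = τ i := fun i => by simp [hF]
  have hFc : Fᶜ.card = n - s := by rw [card_compl, hs, Fintype.card_fin]
  -- the pieces
  let Piece : Finset (Fin n) → Finset (Fin n) → Finset (Fin n) → Finset (Equiv.Perm (Fin n)) :=
    fun X Y Z => univ.filter (fun π => ∀ i ∈ X ∪ Y ∪ Z, π i = if i ∈ Z then τ i else σ i)
  have hcover : A ⊆ (range (s + 1)).biUnion (fun j => (powersetCard (s - j) F).biUnion (fun X =>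
      (powersetCard j Fᶜ).biUnion (fun Y => (powersetCard j (Fᶜ \ Y)).biUnion (fun Z =>
        Piece X Y Z)))) := by
    intro π hπ
    set P : Finset (Fin n) := univ.filter (fun i : Fin n => π i = σ i) with hP
    set Q : Finset (Fin n) := univ.filter (fun i : Fin n => π i = τ i) with hQ
    have memP : ∀ i, i ∈ P ↔ π i = σ i := fun i => by simp [hP]
    have memQ : ∀ i, i ∈ Q ↔ π i = τ i := fun i => by simp [hQ]
    have hPF : P ∩ F = Q ∩ F := by
      ext i
      rw [mem_inter, mem_inter, memP, memQ, memF]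
      constructor
      · rintro ⟨h, h'⟩; exact ⟨h.trans h', h'⟩
      · rintro ⟨h, h'⟩; exact ⟨h.trans h'.symm, h'⟩
    have ha : (P ∩ F).card ≤ s := by rw [← hs]; exact card_le_card inter_subset_right
    have hP1 := h1 π hπ
    have hQ1 := h2 π hπ
    have hP2 : (P \ F).card + (P ∩ F).card = P.card := card_sdiff_add_card_inter P F
    have hQ2 : (Q \ F).card + (Q ∩ F).card = Q.card := card_sdiff_add_card_inter Q F
    rw [← hPF] at hQ2
    set j := s - (P ∩ F).card with hj
    obtain ⟨Y, hY, hYc⟩ := exists_subset_card_eq (show j ≤ (P \ F).card by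
      have : s ≤ P.card := hP1
      omega)
    obtain ⟨Z, hZ, hZc⟩ := exists_subset_card_eq (show j ≤ (Q \ F).card by
      have : s ≤ Q.card := hQ1
      omega)
    simp only [mem_biUnion]
    refine ⟨j, by rw [mem_range]; omega, P ∩ F, ?_, Y, ?_, Z, ?_, ?_⟩
    · rw [mem_powersetCard]
      exact ⟨inter_subset_right, by omega⟩
    · rw [mem_powersetCard]
      refine ⟨fun i hi => ?_, hYc⟩
      rw [mem_compl]
      exact (mem_sdiff.mp (hY hi)).2
    · rw [mem_powersetCard]
      refine ⟨fun i hi => ?_, hZc⟩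
      have hi' := mem_sdiff.mp (hZ hi)
      rw [mem_sdiff, mem_compl]
      refine ⟨hi'.2, fun hiY => ?_⟩
      have hi'' := mem_sdiff.mp (hY hiY)
      apply hi'.2
      rw [memF]
      rw [memQ] at hi'
      rw [memP] at hi''
      exact hi''.1.symm.trans hi'.1
    · rw [mem_filter]
      refine ⟨mem_univ _, fun i hi => ?_⟩
      by_cases hiZ : i ∈ Z
      · rw [if_pos hiZ]
        exact (memQ i).mp (mem_sdiff.mp (hZ hiZ)).1
      · rw [if_neg hiZ]
        rw [mem_union, mem_union] at hi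
        rcases hi with (hi | hi) | hi
        · exact (memP i).mp (mem_inter.mp hi).1
        · exact (memP i).mp (mem_sdiff.mp (hY hi)).1
        · exact absurd hi hiZ
  have hcount : A.card ≤ ∑ j ∈ range (s + 1), (s.choose j) *
      ((n - s).choose j * ((n - s - j).choose j * (n - s - j).factorial)) := by
    refine (card_le_card hcover).trans (card_biUnion_le.trans (sum_le_sum ?_))
    intro j hj
    rw [mem_range] at hj
    have hj' : j ≤ s := by omega
    have c1 : (powersetCard (s - j) F).card = s.choose j := by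
      rw [card_powersetCard, hs, Nat.choose_symm hj']
    rw [← c1]
    apply card_biUnion_le_card_mul
    intro X hX
    have c2 : (powersetCard j Fᶜ).card = (n - s).choose j := by
      rw [card_powersetCard, hFc]
    rw [← c2]
    apply card_biUnion_le_card_mul
    intro Y hY
    rw [mem_powersetCard] at hX hY
    have c3 : (powersetCard j (Fᶜ \ Y)).card = (n - s - j).choose j := by
      rw [card_powersetCard, card_sdiff_of_subset hY.1, hFc, hY.2]
    rw [← c3]
    apply card_biUnion_le_card_mul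
    intro Z hZ
    rw [mem_powersetCard] at hZ
    have hd1 : Disjoint X Y := by
      rw [Finset.disjoint_left]
      intro i hi hi'
      exact (mem_compl.mp (hY.1 hi')) (hX.1 hi)
    have hd2 : Disjoint (X ∪ Y) Z := by
      rw [Finset.disjoint_left]
      intro i hi hi'
      have h3 := mem_sdiff.mp (hZ.1 hi')
      rw [mem_union] at hi
      rcases hi with hi | hi
      · exact (mem_compl.mp h3.1) (hX.1 hi)
      · exact h3.2 hi
    have c4 : (X ∪ Y ∪ Z).card = s + j := by
      rw [card_union_of_disjoint hd2, card_union_of_disjoint hd1, hX.2, hY.2, hZ.2]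
      omega
    have h5 := card_prescribed (X ∪ Y ∪ Z) (fun i => if i ∈ Z then τ i else σ i)
    rw [c4] at h5
    rw [show n - s - j = n - (s + j) by omega]
    exact h5
  have hcast : (A.card : ℝ) ≤ ((∑ j ∈ range (s + 1), (s.choose j) *
      ((n - s).choose j * ((n - s - j).choose j * (n - s - j).factorial)) : ℕ) : ℝ) := by
    exact_mod_cast hcount
  refine hcast.trans ?_
  rw [g, Nat.cast_sum, mul_sum]
  apply sum_le_sum
  intro j _
  rw [Nat.cast_mul]
  calc (s.choose j : ℝ) * (((n - s).choose j * ((n - s - j).choose j *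
        (n - s - j).factorial) : ℕ) : ℝ)
      ≤ (s.choose j : ℝ) * (((n - s).factorial : ℝ) *
          (((n - s).choose j : ℝ) / (j.factorial : ℝ))) :=
        mul_le_mul_of_nonneg_left (term_le (n - s) j) (Nat.cast_nonneg _)
    _ = ((n - s).factorial : ℝ) * (((s.choose j : ℝ) * ((n - s).choose j : ℝ)) /
          (j.factorial : ℝ)) := by ring

/-- the exponential form of the bound -/
lemma g_le_exp (s m : ℕ) :
    g s m ≤ (m.factorial : ℝ) * Real.exp (3 * ((s : ℝ) * (m : ℝ)) ^ (1 / 3 : ℝ)) := by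
  unfold g
  apply mul_le_mul_of_nonneg_left _ (Nat.cast_nonneg _)
  set y : ℝ := ((s : ℝ) * (m : ℝ)) ^ (1 / 3 : ℝ) with hy
  have hsm : (0 : ℝ) ≤ (s : ℝ) * (m : ℝ) := by positivity
  have hy0 : 0 ≤ y := Real.rpow_nonneg hsm _
  have hy3 : y ^ 3 = (s : ℝ) * (m : ℝ) := by
    rw [hy, ← Real.rpow_natCast, ← Real.rpow_mul hsm]
    norm_num
  set x : ℕ → ℝ := fun j => y ^ j / (j.factorial : ℝ) with hx
  have hx0 : ∀ j, 0 ≤ x j := fun j => by rw [hx]; positivity
  have h1 : ∑ j ∈ range (s + 1), ((s.choose j : ℝ) * (m.choose j : ℝ)) / (j.factorial : ℝ) ≤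
      ∑ j ∈ range (s + 1), x j ^ 3 := by
    apply sum_le_sum
    intro j _
    have hj : (0 : ℝ) < (j.factorial : ℝ) := by exact_mod_cast j.factorial_pos
    have a1 : (s.choose j : ℝ) ≤ (s : ℝ) ^ j / (j.factorial : ℝ) := Nat.choose_le_pow_div j s
    have a2 : (m.choose j : ℝ) ≤ (m : ℝ) ^ j / (j.factorial : ℝ) := Nat.choose_le_pow_div j m
    have a3 : x j ^ 3 = ((s : ℝ) ^ j / (j.factorial : ℝ)) * ((m : ℝ) ^ j / (j.factorial : ℝ)) /
        (j.factorial : ℝ) := by
      rw [hx]
      simp only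
      rw [div_pow, ← pow_mul, mul_comm j 3, pow_mul, hy3, mul_pow]
      field_simp
    rw [a3]
    apply div_le_div_of_nonneg_right _ hj.le
    exact mul_le_mul a1 a2 (Nat.cast_nonneg _) (by positivity)
  set S : ℝ := ∑ j ∈ range (s + 1), x j with hS
  have hS0 : 0 ≤ S := sum_nonneg (fun j _ => hx0 j)
  have h2 : ∑ j ∈ range (s + 1), x j ^ 3 ≤ S ^ 3 := by
    have h3 : ∀ j ∈ range (s + 1), x j ^ 3 ≤ x j * S ^ 2 := by
      intro j hj
      have h4 : x j ≤ S := single_le_sum (fun j _ => hx0 j) hj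
      have h5 : x j ^ 2 ≤ S ^ 2 := pow_le_pow_left₀ (hx0 j) h4 2
      calc x j ^ 3 = x j * x j ^ 2 := by ring
        _ ≤ x j * S ^ 2 := mul_le_mul_of_nonneg_left h5 (hx0 j)
    calc ∑ j ∈ range (s + 1), x j ^ 3 ≤ ∑ j ∈ range (s + 1), x j * S ^ 2 := sum_le_sum h3
      _ = S * S ^ 2 := by rw [← sum_mul]
      _ = S ^ 3 := by ring
  have h3 : S ≤ Real.exp y := Real.sum_le_exp_of_nonneg hy0 _
  calc ∑ j ∈ range (s + 1), ((s.choose j : ℝ) * (m.choose j : ℝ)) / (j.factorial : ℝ)
      ≤ S ^ 3 := h1.trans h2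
    _ ≤ (Real.exp y) ^ 3 := pow_le_pow_left₀ hS0 h3 3
    _ = Real.exp (3 * y) := by rw [← Real.exp_nat_mul]; norm_num

/-- **Theorem.** For all `t ≤ n`, every `t`-intersecting family `A` of permutations of `n` points has
at most `(n-t)! * S` elements, where `S = ∑ j ≤ t, C(t,j) C(n-t,j) / j!` is at most
`exp (3 (t(n-t))^(1/3))`. -/
theorem result (n t : ℕ) (ht : t ≤ n) (A : Finset (Equiv.Perm (Fin n)))
    (hA : ∀ σ ∈ A, ∀ τ ∈ A, t ≤ (univ.filter (fun i : Fin n => σ i = τ i)).card) :
    (A.card : ℝ) ≤ ((n - t).factorial : ℝ) *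
        ∑ j ∈ range (t + 1), ((t.choose j : ℝ) * ((n - t).choose j : ℝ)) / (j.factorial : ℝ) ∧
    ∑ j ∈ range (t + 1), ((t.choose j : ℝ) * ((n - t).choose j : ℝ)) / (j.factorial : ℝ) ≤
      Real.exp (3 * ((t : ℝ) * ((n - t : ℕ) : ℝ)) ^ (1 / 3 : ℝ)) := by
  classical
  have key : (A.card : ℝ) ≤ g t (n - t) := by
    rcases A.eq_empty_or_nonempty with rfl | ⟨σ0, hσ0⟩
    · rw [card_empty, g]
      push_cast
      positivity
    · obtain ⟨⟨σ, τ⟩, hp, hmin⟩ := exists_min_image (A ×ˢ A)
        (fun p : Equiv.Perm (Fin n) × Equiv.Perm (Fin n) =>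
          (univ.filter (fun i : Fin n => p.1 i = p.2 i)).card) ⟨(σ0, σ0), mem_product.mpr ⟨hσ0, hσ0⟩⟩
      rw [mem_product] at hp
      simp only at hp hmin
      have hst := hA σ hp.1 τ hp.2
      set s := (univ.filter (fun i : Fin n => σ i = τ i)).card with hs
      have h1 := card_le_g σ τ hs.symm A
        (fun π hπ => hmin (π, σ) (mem_product.mpr ⟨hπ, hp.1⟩))
        (fun π hπ => hmin (π, τ) (mem_product.mpr ⟨hπ, hp.2⟩))
      have hsn : s ≤ n := by
        rw [hs]
        refine (card_le_univ _).trans ?_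
        rw [Fintype.card_fin]
      obtain ⟨k, hk⟩ := Nat.exists_eq_add_of_le hst
      have h2 := g_mono k t (n - s)
      rw [← hk, show n - s + k = n - t by omega] at h2
      exact h1.trans h2
  refine ⟨key, ?_⟩
  have hfac : (0 : ℝ) < ((n - t).factorial : ℝ) := by exact_mod_cast (n - t).factorial_pos
  exact le_of_mul_le_mul_left (g_le_exp t (n - t)) hfac

end Pool.Agent.Results.MP_46fa68_co.TwoMemberBound
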